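import Pool.Agent.helper72.UP.Spec

set_option autoImplicit false

namespace Pool.Agent.helper72.UP

open Finset

theorem DEC (hRAT : RAT_stmt) : DEC_stmt := by
  intro n i d hn hi hn1
  have hn0 : (0 : ℝ) < (n : ℝ) := by exact_mod_cast hn1
  induction d with
  | zero =>
    simp
  | succ d ih =>
    rcases Nat.lt_or_ge n (2 * (i + d)) with h | h
    · have h0 : uu n (i + (d + 1)) = 0 := by
        unfold uu
        rw [Nat.choose_eq_zero_of_lt (show n / 2 < i + (d + 1) by omega), mul_zero]
      rw [h0, Nat.cast_zero]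
      positivity
    · have h1 := hRAT n (i + d) (by omega) h (by omega)
      have h2 : (uu n (i + d) : ℝ) * Real.exp (-(2 * (4 * ((i + d : ℕ) : ℝ) - n) / n)) ≤
          (uu n i * Real.exp (-(4 * (d : ℝ) * ((d : ℝ) - 1) / n))) *
            Real.exp (-(2 * (4 * ((i + d : ℕ) : ℝ) - n) / n)) :=
        mul_le_mul_of_nonneg_right ih (Real.exp_pos _).le
      refine h1.trans (h2.trans ?_)
      rw [mul_assoc, ← Real.exp_add]
      refine mul_le_mul_of_nonneg_left ?_ (Nat.cast_nonneg _)
      apply Real.exp_le_exp.2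
      have h3 : (n : ℝ) ≤ 4 * (i : ℝ) := by exact_mod_cast hn
      push_cast
      have h4 : -(4 * (d : ℝ) * ((d : ℝ) - 1) / n) + -(2 * (4 * ((i : ℝ) + (d : ℝ)) - n) / n) =
          -((4 * (d : ℝ) * ((d : ℝ) - 1) + 2 * (4 * ((i : ℝ) + (d : ℝ)) - n)) / n) := by ring
      rw [h4]
      apply neg_le_neg
      apply div_le_div_of_nonneg_right _ hn0.le
      nlinarith

end Pool.Agent.helper72.UP
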